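import Mathlib
import Pool.Agent.H865.UP.FinH

/-!
# The unramified period-index conjecture for quotients and bundles

Let `k` be an algebraically closed field of characteristic zero, `X` an integral proper scheme over
`k` with function field `K`, and `D` a central division algebra over `K` which is unramified at all
points of `X`. If `X` has dimension `d`, the question asks whether the index of `D` divides
`r ^ (d - 1)` if the `r`-th tensor power of `D` is split.

We consider coverings of `X`, up to stable birational equivalence, by varieties `Y / G`. Here `Y` is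
a variety with function field `L`, which is fibered over a base with function field `F`, and `G`
is a group of automorphisms of `Y`. The types of `Y` and `G` (see `IsModel`) are: products of the
base and projective spaces, with finite groups, which may permute the factors; linear
representations of finite groups; powers of a vector bundle over a curve, with finite groups; powers
of a linear representation of a group with a diagonal normal subgroup of finite index, which gives
e.g. `GL_n / H` for every `H` whose identity component is trivial or a torus. For a single prime `p`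
(see `IsLocalModel`) there are also tori over the base, with finite groups. For each type there are
numbers `N` and `c`. The index of `D` divides `m * N * N₁` if the covering has degree `m`; here `N₁`
is a bound for the index of unramified division algebras over `F`, with `N₁ = 1` if the base is a
curve or a point. The number `c` is the corresponding exponent of the period.

In particular (last part of the theorem, with `b = 0`) the assertion of the question holds for `X`
if `X` is stably birational to such a quotient `Y / G` over a curve or a point and `c ≤ d - 1`.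
-/

set_option autoImplicit false

open AlgebraicGeometry CategoryTheory
open scoped TensorProduct
open Pool.Agent.H865.UP

noncomputable section

namespace Pool.Agent.Results.MP_43d240_ag.QuotientVarieties

/-- The division algebra `D` over `K` is unramified over the subring `R` of `K`: its Brauer class is
the class of an Azumaya algebra over `R`. -/
def IsUnramifiedAt (R K D : Type) [CommRing R] [Field K] [Algebra R K] [DivisionRing D]
    [Algebra K D] : Prop :=
  ∃ (A : Type) (_ : Ring A) (_ : Algebra R A), IsAzumaya R A ∧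
    ∃ m : ℕ, Nonempty (K ⊗[R] A ≃ₐ[K] Matrix (Fin m) (Fin m) D)

/-- The division algebra `D` over the function field of `X` is unramified at every point of `X`. -/
def IsUnramified (X : Scheme.{0}) [IsIntegral X] (D : Type) [DivisionRing D]
    [Algebra X.functionField D] : Prop :=
  ∀ x : X, IsUnramifiedAt (X.presheaf.stalk x) X.functionField D

/-- The index of a central division algebra `D` over `K`. -/
def index (K D : Type) [Field K] [DivisionRing D] [Algebra K D] : ℕ :=
  Nat.sqrt (Module.finrank K D)

/-- The period of `D` divides `r`: the `r`-th tensor power of `D` is split. -/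
def PeriodDvd (K D : Type) [Field K] [DivisionRing D] [Algebra K D] (r : ℕ) : Prop :=
  0 < r ∧ ∃ m : ℕ, Nonempty ((⨂[K] (_ : Fin r), D) ≃ₐ[K] Matrix (Fin m) (Fin m) K)

/-- The homomorphism from the ground field `k` to the function field of a `k`-scheme `X`. -/
def groundHom {k : Type} [Field k] (X : Scheme.{0}) [IsIntegral X]
    (f : X ⟶ Spec (CommRingCat.of k)) : k →+* X.functionField :=
  ((f.appTop ≫ X.presheaf.germ ⊤ (genericPoint X) trivial).hom).comp
    (Scheme.ΓSpecIso (CommRingCat.of k)).inv.hom

/-- The field `A(t_1, ..., t_b)` of rational functions. -/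
abbrev RatField (b : ℕ) (A : Type) [Field A] : Type := FractionRing (MvPolynomial (Fin b) A)

/-- The constant functions. -/
def const (b : ℕ) (A : Type) [Field A] : A →+* RatField b A :=
  (algebraMap (MvPolynomial (Fin b) A) (RatField b A)).comp MvPolynomial.C

/-- Let `L` be the function field of `Y`. There is a dominant rational map of degree `m` over `k`
from `(Y / G) × A^b` to `X × A^a`, for some `a` and `b`: the field `L^G(t_1, ..., t_b)` is an
extension of degree `m` of the field `K(t_1, ..., t_a)`, where `K` is the function field of `X`.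
For `m = 1` this means that `X` is stably birational to `Y / G`. -/
def Covers {k : Type} [Field k] (X : Scheme.{0}) [IsIntegral X]
    (f : X ⟶ Spec (CommRingCat.of k)) {L : Type} [Field L] [Algebra k L]
    (G : Subgroup (L ≃ₐ[k] L)) (m : ℕ) : Prop :=
  0 < m ∧ ∃ (a b : ℕ) (_ : Algebra (RatField a X.functionField)
      (RatField b (IntermediateField.fixedField G))),
    (∀ c : k, algebraMap (RatField a X.functionField) (RatField b (IntermediateField.fixedField G))
      (const a _ (groundHom X f c)) =
        const b _ (algebraMap k (IntermediateField.fixedField G) c)) ∧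
    Module.finrank (RatField a X.functionField) (RatField b (IntermediateField.fixedField G)) = m

/-- `L` is the field of rational functions over `F` in the variables `x j`. -/
structure IsRational (F : Type) {L J : Type} [Field F] [Field L] [Algebra F L] (x : J → L) :
    Prop where
  algebraicIndependent : AlgebraicIndependent F x
  generates : IntermediateField.adjoin F (Set.range x) = ⊤

/-- The index of every central division algebra over `F` which is unramified over `k`, i.e. at all
valuation rings of `F` which contain `k`, and whose period divides `r`, divides `N₁`. -/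
def IndexBound (k F : Type) [Field k] [Field F] [Algebra k F] (r N₁ : ℕ) : Prop :=
  ∀ (D : Type) [DivisionRing D] [Algebra F D] [Algebra.IsCentral F D] [FiniteDimensional F D],
    (∀ V : ValuationSubring F, (∀ c : k, algebraMap k F c ∈ V) → IsUnramifiedAt V F D) →
    PeriodDvd F D r → index F D ∣ N₁

section
variable {k L : Type} [Field k] [Field L] [Algebra k L]

/-- The bound for the base. Either `F` has transcendence degree at most one over `k`, or the index
of the unramified division algebras of period dividing `r` over `F` and its subfields divides `N₁`,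
where `r` is a multiple of the period of `D`. -/
def BaseBound (K D : Type) [Field K] [DivisionRing D] [Algebra K D] (F : IntermediateField k L)
    (N₁ : ℕ) : Prop :=
  Algebra.trdeg k F ≤ 1 ∨ ∃ r : ℕ, PeriodDvd K D r ∧
    ∀ F' : IntermediateField k L, F' ≤ F → IndexBound k F' r N₁

/-- The elements of `G` map the subfield `F` to itself. -/
def Preserves (F : IntermediateField k L) (G : Subgroup (L ≃ₐ[k] L)) : Prop :=
  ∀ g ∈ G, ∀ c ∈ F, g c ∈ F

/-- The automorphism `g` maps the affine coordinates `x_i` to the affine coordinates `y_j` up to a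
projective transformation: in the homogeneous coordinates `1, x_i` and `1, y_j` it is linear over
`k`, up to a common factor. -/
def ProjectiveMap {n n' : ℕ} (x : Fin n → L) (y : Fin n' → L) (g : L ≃ₐ[k] L) : Prop :=
  ∃ h : L, h ≠ 0 ∧ ∀ u ∈ Submodule.span k (insert 1 (Set.range x)),
    h * g u ∈ Submodule.span k (insert 1 (Set.range y))

/-- The types of models: `G` acts on a variety `Y` with function field `L`, which is fibered over a
base with function field `F`; `N` and `c` are the bounds obtained. -/
inductive IsModel : Subgroup (L ≃ₐ[k] L) → IntermediateField k L → ℕ → ℕ → Prop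
  /-- `Y = B × P^n` for a variety `B` with function field `F`, and `G` is trivial. -/
  | rational (F : IntermediateField k L) (n : ℕ) (x : Fin n → L) : IsRational F x →
      IsModel ⊥ F 1 0
  /-- `Y = B × P^{n_1} × ... × P^{n_s}`; the finite group `G` acts on `B` and on every factor. -/
  | product (G : Subgroup (L ≃ₐ[k] L)) (F : IntermediateField k L) (s : ℕ) (n : Fin s → ℕ)
      (x : (i : Fin s) → Fin (n i) → L) : Finite G →
      IsRational F (fun j : (i : Fin s) × Fin (n i) => x j.1 j.2) → Preserves F G →
      (∀ i, ∀ g ∈ G, ProjectiveMap (x i) (x i) g) →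
      IsModel G F (∏ i, (n i + 1).factorial) (∑ i, n i)
  /-- `Y = B × P^{n_1} × ... × P^{n_s}`; the finite group `G` acts on `B` and permutes the
  factors. -/
  | permuted (G : Subgroup (L ≃ₐ[k] L)) (F : IntermediateField k L) (s : ℕ) (n : Fin s → ℕ)
      (x : (i : Fin s) → Fin (n i) → L) (σ : G →* Equiv.Perm (Fin s)) : Finite G →
      IsRational F (fun j : (i : Fin s) × Fin (n i) => x j.1 j.2) → Preserves F G →
      (∀ i, ∀ g : G, ProjectiveMap (x i) (x (σ g i)) (g : L ≃ₐ[k] L)) →
      IsModel G F (s.factorial * ∏ i, (n i + 1).factorial) ((∑ i, n i) + s - 1)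
  /-- `Y = P^{n_1} × ... × P^{n_s}`; the finite group `G` acts on every factor. -/
  | spaces (G : Subgroup (L ≃ₐ[k] L)) (s : ℕ) (n : Fin s → ℕ)
      (x : (i : Fin s) → Fin (n i) → L) : Finite G →
      IsRational k (fun j : (i : Fin s) × Fin (n i) => x j.1 j.2) →
      (∀ i, ∀ g ∈ G, ProjectiveMap (x i) (x i) g) →
      IsModel G ⊥ ((∏ i, (n i + 1).factorial) / 2) ((∑ i, n i) - 1)
  /-- `Y` is the direct sum of `q` copies of a vector bundle of rank `n` over a curve (or a point);
  the finite group `G` acts linearly. -/
  | bundle (G : Subgroup (L ≃ₐ[k] L)) (F : IntermediateField k L) (q n : ℕ)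
      (x : Fin q → Fin n → L) : Finite G → Algebra.trdeg k F ≤ 1 →
      IsRational F (fun j : Fin q × Fin n => x j.1 j.2) → Preserves F G →
      (∀ g ∈ G, ∃ a : Fin n → Fin n → F, ∀ j i, g (x j i) = ∑ l, a i l • x j l) →
      IsModel G F n.factorial (n - 1)
  /-- `Y` is a linear representation of dimension `d` of the finite group `G`. -/
  | linear (G : Subgroup (L ≃ₐ[k] L)) (d : ℕ) (x : Fin d → L) : Finite G → IsRational k x →
      (∀ g ∈ G, ∀ i, g (x i) ∈ Submodule.span k (Set.range x)) →
      IsModel G ⊥ (d.factorial / 2) (d - 2)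
  /-- `Y` is the direct sum of `q` copies of a linear representation of dimension `n` of `G`; a
  normal subgroup `T` of finite index is diagonal. -/
  | toral (G : Subgroup (L ≃ₐ[k] L)) (q n : ℕ) (x : Fin q → Fin n → L) :
      IsRational k (fun j : Fin q × Fin n => x j.1 j.2) →
      (∀ g ∈ G, ∃ a : Fin n → Fin n → k, ∀ j i, g (x j i) = ∑ l, a i l • x j l) →
      ∀ T : Subgroup (L ≃ₐ[k] L), T ≤ G → T.relIndex G ≠ 0 →
      (∀ g ∈ G, ∀ t ∈ T, g * t * g⁻¹ ∈ T) →
      (∀ t ∈ T, ∃ c : Fin n → k, ∀ j i, t (x j i) = c i • x j i) →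
      IsModel G ⊥ n.factorial (n - 1)

/-- Types of models for one prime number `p`. -/
inductive IsLocalModel (p : ℕ) : Subgroup (L ≃ₐ[k] L) → IntermediateField k L → ℕ → Prop
  /-- `Y` is a torus of dimension `n` over the field `F`; the elements of the finite group `G` act
  on `F` and map the coordinates to monomials with coefficients in `F`. -/
  | torus (G : Subgroup (L ≃ₐ[k] L)) (F : IntermediateField k L) (n : ℕ) (x : Fin n → L) :
      Finite G → IsRational F x → Preserves F G →
      (∀ g ∈ G, ∀ i, ∃ c ∈ F, ∃ e : Fin n → ℤ, g (x i) = c * ∏ j, x j ^ e j) →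
      IsLocalModel p G F (if p = 2 then 2 * n - 1 else n - 1)
  /-- The case `permuted` above; `p ≠ 2` and the factors have positive dimension. -/
  | permuted (G : Subgroup (L ≃ₐ[k] L)) (F : IntermediateField k L) (s : ℕ) (n : Fin s → ℕ)
      (x : (i : Fin s) → Fin (n i) → L) (σ : G →* Equiv.Perm (Fin s)) : Finite G → p ≠ 2 →
      (∀ i, 1 ≤ n i) → IsRational F (fun j : (i : Fin s) × Fin (n i) => x j.1 j.2) →
      Preserves F G → (∀ i, ∀ g : G, ProjectiveMap (x i) (x (σ g i)) (g : L ≃ₐ[k] L)) →
      IsLocalModel p G F ((∑ i, n i) - 1)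

end

/-! ### Auxiliary statements -/

theorem rational_rows {k L : Type} [Field k] [Field L] [Algebra k L] {q n : ℕ}
    {x : Fin q → Fin n → L} (hx : IsRational k (fun j : Fin q × Fin n => x j.1 j.2)) :
    IsRFF k (unc x) := by
  refine ⟨?_, ?_⟩
  · exact hx.1.comp finProdFinEquiv.symm finProdFinEquiv.symm.injective
  · have h : Set.range (unc x) = Set.range (fun j : Fin q × Fin n => x j.1 j.2) :=
      finProdFinEquiv.symm.surjective.range_comp (fun j : Fin q × Fin n => x j.1 j.2)
    rw [h]
    exact hx.2

theorem model_bound {k L : Type} [Field k] [IsAlgClosed k] [CharZero k] [Field L] [Algebra k L]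
    {G : Subgroup (L ≃ₐ[k] L)} {F : IntermediateField k L} {N c : ℕ} (h : IsModel G F N c)
    {m I r N₁ : ℕ} (hm : 0 < m) (hI : 0 < I) (hs : SubB G m I r) (hB : BB F r N₁) :
    BdB m I N c N₁ := by
  cases h with
  | rational _ n x hx =>
    exact bdB_rat vRh vComp vPull vResI vTsen k L F n x ⟨hx.1, hx.2⟩ vDiagS hs hB
  | product _ _ s n x hG hx hF hP =>
    exact bdB_prod vRh vComp vPull vResI vTsen vSylC vDiagS vNum3 k L F s n x hx.1 hx.2 G hG hF
      hP hm hI hs hB
  | permuted _ _ s n x σ hG hx hF hP =>
    exact (bdB_perm vRh vComp vPull vResI vTsen vSylC vDiagS vNum3 vNum5 k L F s n x hx.1 hx.2 G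
      hG hF σ (fun g i => hP i g) hm hI hs hB).1
  | spaces _ s n x hG hx hP =>
    exact (bd_pp vSylC vDiagS vNum3 vDiag vSylPP vRat vOne vNum4 vTr k L s n x hx.1 hx.2 G hG hP
      hm hI (hs.subM vTsen)).bdB N₁
  | bundle _ _ q n x hG ht hx hF hl =>
    exact (bd_semi2 vSylS2 vDiagS vNum3 k L F ht q n x (rational_rows hx) G hG
      (fun g hg => ⟨hF g hg, hl g hg⟩) hm hI (hs.subM vTsen)).bdB N₁
  | linear _ d x hG hx hl =>
    exact (bd_lin vDiag vSylL vRat vNum2 vNum4 vTr k L d x ⟨hx.1, hx.2⟩ G hG hl hm hI
      (hs.subM vTsen)).bdB N₁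
  | toral _ q n x hx hl T hT hi hn hd =>
    exact (bd_inf2 vSylI2 vDiagI vNum3 k L q n x (rational_rows hx) T G hT hn hi hl hd hm hI
      (hs.subM vTsen)).bdB N₁

theorem local_bound {k L : Type} [Field k] [IsAlgClosed k] [CharZero k] [Field L] [Algebra k L]
    {G : Subgroup (L ≃ₐ[k] L)} {F : IntermediateField k L} {p c : ℕ} (hp : p.Prime)
    (h : IsLocalModel p G F c) {m I r N₁ : ℕ} (hm : 0 < m) (hI : 0 < I) (hs : SubB G m I r)
    (hB : BB F r N₁) : ∃ M : ℕ, I ∣ m * M * N₁ ∧ ¬ p ^ (c + 1) ∣ M := by
  cases h with
  | torus n x hG hx hF hmon =>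
    exact bdB_tor vRh vComp vPull vResI vTsen vSylTS vSylT2 vDiagS k L F n x ⟨hx.1, hx.2⟩ G hG
      (fun g hg => ⟨hF g hg, hmon g hg⟩) hs hB p hp
  | permuted s n x σ hG hp2 hn hx hF hP =>
    exact (bdB_perm vRh vComp vPull vResI vTsen vSylC vDiagS vNum3 vNum5 k L F s n x hx.1 hx.2 G
      hG hF σ (fun g i => hP i g) hm hI hs hB).2 p hp hp2 hn

theorem index_pos (K D : Type) [Field K] [DivisionRing D] [Algebra K D] [FiniteDimensional K D] :
    0 < index K D :=
  Nat.sqrt_pos.2 Module.finrank_pos

theorem base_bb {k L : Type} [Field k] [Field L] [Algebra k L] {K D : Type} [Field K]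
    [DivisionRing D] [Algebra K D] [Algebra.IsCentral K D] [FiniteDimensional K D]
    {F : IntermediateField k L} {N₁ : ℕ} (h : BaseBound K D F N₁) :
    ∃ r : ℕ, (Pool.Agent.Helper18.Br.brauerClass K D) ^ r = 1 ∧ BB F r N₁ := by
  rcases h with h | ⟨r, hr, h⟩
  · exact ⟨0, pow_zero _, Or.inl h⟩
  · refine ⟨r, vTen K D r hr.1 hr.2, Or.inr fun F' hF' β hβ hr' => ?_⟩
    obtain ⟨D', _, _, _, _, h1, h2, h3⟩ := vNRD k F' β hβ
    refine h2 N₁ (h F' hF' D' h3 ⟨hr.1, vTenC F' D' r hr.1 ?_⟩)
    rw [h1, hr']

theorem covers_sub {k : Type} [Field k] [IsAlgClosed k] [CharZero k] {X : Scheme.{0}}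
    [IsIntegral X] {f : X ⟶ Spec (CommRingCat.of k)} (hf : IsProper f) {D : Type}
    [DivisionRing D] [Algebra X.functionField D] [Algebra.IsCentral X.functionField D]
    [FiniteDimensional X.functionField D] (hD : IsUnramified X D) {L : Type} [Field L]
    [Algebra k L] {G : Subgroup (L ≃ₐ[k] L)} {m : ℕ} (h : Covers X f G m) {r : ℕ}
    (hr : (Pool.Agent.Helper18.Br.brauerClass X.functionField D) ^ r = 1) :
    SubB G m (index X.functionField D) r := by
  obtain ⟨hm, a, b, inst, h1, h2⟩ := h
  obtain ⟨i, rfl⟩ : ∃ i : RFN a X.functionField →+* RFN b (IntermediateField.fixedField G),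
      inst = i.toAlgebra := ⟨@algebraMap _ _ _ _ inst, Algebra.algebra_ext _ _ fun _ => rfl⟩
  exact subB_of vRh vComp vPull vOf vVal vIndH vResI vPT vRatN vDegR k X f hf D hD L G a b i h1 m
    hm h2 r hr

theorem result (k : Type) [Field k] [IsAlgClosed k] [CharZero k] (X : Scheme.{0}) [IsIntegral X]
    (f : X ⟶ Spec (CommRingCat.of k)) (hf : IsProper f) (D : Type) [DivisionRing D]
    [Algebra X.functionField D] [Algebra.IsCentral X.functionField D]
    [FiniteDimensional X.functionField D] (hD : IsUnramified X D) :
    -- the index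
    (∀ (L : Type) [Field L] [Algebra k L] (G : Subgroup (L ≃ₐ[k] L)) (F : IntermediateField k L)
      (N c m N₁ : ℕ), IsModel G F N c → Covers X f G m → BaseBound X.functionField D F N₁ →
      index X.functionField D ∣ m * N * N₁) ∧
    -- powers of the period
    (∀ r e : ℕ, PeriodDvd X.functionField D r →
      (∀ p : ℕ, p.Prime → p ∣ r → ∃ (L : Type) (_ : Field L) (_ : Algebra k L)
        (G : Subgroup (L ≃ₐ[k] L)) (F : IntermediateField k L) (c m N₁ i j : ℕ),
        ((∃ N : ℕ, IsModel G F N c) ∨ IsLocalModel p G F c) ∧ Covers X f G m ∧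
        BaseBound X.functionField D F N₁ ∧ ¬ p ^ (i + 1) ∣ m ∧ ¬ p ^ (j + 1) ∣ N₁ ∧
        p ^ (c + i + j) ∣ r ^ e) →
      index X.functionField D ∣ r ^ e) ∧
    -- the special case of stable birational equivalence, for a bound in terms of the period
    ∀ (L : Type) [Field L] [Algebra k L] (G : Subgroup (L ≃ₐ[k] L)) (F : IntermediateField k L)
      (c : ℕ), Covers X f G 1 → ∀ r b : ℕ, PeriodDvd X.functionField D r →
      BaseBound X.functionField D F (r ^ b) →
      ((∃ N : ℕ, IsModel G F N c) ∨ ∀ p : ℕ, p.Prime → p ∣ r → IsLocalModel p G F c) →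
      index X.functionField D ∣ r ^ (c + b) := by
  have hA : ∀ (L : Type) [Field L] [Algebra k L] (G : Subgroup (L ≃ₐ[k] L))
      (F : IntermediateField k L) (N c m N₁ : ℕ), IsModel G F N c → Covers X f G m →
      BaseBound X.functionField D F N₁ → BdB m (index X.functionField D) N c N₁ := by
    intro L _ _ G F N c m N₁ h1 h2 h3
    obtain ⟨r, hr, hB⟩ := base_bb h3
    exact model_bound h1 h2.1 (index_pos _ _) (covers_sub hf hD h2 hr) hB
  have hB : ∀ r e : ℕ, PeriodDvd X.functionField D r →
      (∀ p : ℕ, p.Prime → p ∣ r → ∃ (L : Type) (_ : Field L) (_ : Algebra k L)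
        (G : Subgroup (L ≃ₐ[k] L)) (F : IntermediateField k L) (c m N₁ i j : ℕ),
        ((∃ N : ℕ, IsModel G F N c) ∨ IsLocalModel p G F c) ∧ Covers X f G m ∧
        BaseBound X.functionField D F N₁ ∧ ¬ p ^ (i + 1) ∣ m ∧ ¬ p ^ (j + 1) ∣ N₁ ∧
        p ^ (c + i + j) ∣ r ^ e) →
      index X.functionField D ∣ r ^ e := by
    intro r e hr h
    refine num_localB _ r e (fun p hp hpr => ?_) fun p hp hpr =>
      per_of vPer vTen k _ (kStalk X f (genericPoint X)) D r hr.1 hr.2 p hp hpr
    obtain ⟨L, _, _, G, F, c, m, N₁, i, j, h1, h2, h3, h4, h5, h6⟩ := h p hp hpr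
    have h7 : ∃ M : ℕ, index X.functionField D ∣ m * M * N₁ ∧ ¬ p ^ (c + 1) ∣ M := by
      rcases h1 with ⟨N, h1⟩ | h1
      · exact (hA L G F N c m N₁ h1 h2 h3).2 p hp
      · obtain ⟨r', hr', hB⟩ := base_bb h3
        exact local_bound hp h1 h2.1 (index_pos _ _) (covers_sub hf hD h2 hr') hB
    obtain ⟨M, h7, h8⟩ := h7
    exact ⟨m, M, N₁, i, j, c, h7, h8, h4, h5, h6⟩
  refine ⟨?_, hB, ?_⟩
  · intro L _ _ G F N c m N₁ h1 h2 h3
    exact (hA L G F N c m N₁ h1 h2 h3).1
  · intro L _ _ G F c h1 r b hr h2 h3
    refine hB r (c + b) hr fun p hp hpr => ?_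
    refine ⟨L, _, _, G, F, c, 1, r ^ b, 0, b * padicValNat p r, ?_, h1, h2, ?_, ?_, ?_⟩
    · rcases h3 with h3 | h3
      · exact Or.inl h3
      · exact Or.inr (h3 p hp hpr)
    · rw [zero_add, pow_one]
      exact hp.one_lt.ne' ∘ Nat.dvd_one.1
    · have := Fact.mk hp
      rw [padicValNat_dvd_iff_le (pow_ne_zero _ hr.1.ne'), padicValNat.pow]
      omega
    · rw [add_zero, pow_add, pow_add]
      refine mul_dvd_mul (pow_dvd_pow_of_dvd hpr c) ?_
      rw [mul_comm b, pow_mul]
      exact pow_dvd_pow_of_dvd pow_padicValNat_dvd b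

end Pool.Agent.Results.MP_43d240_ag.QuotientVarieties
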